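import Pool.Agent.J4.H35.VojA

/-!
# Vojta's conjecture for the algebraic points above the good rational approximations of almost all real
points

**Curves.** Let `X` be a smooth projective curve over a number field, `t : X → ℙ¹` a finite map of degree
`N` over `ℚ` which is unramified outside the fibres over `q` rational points `a_0, …, a_{q-1}` (such a map
exists, with `q = 3`, by Belyi's theorem; we may suppose that `a_k ≠ ∞`), and let `F` be the sum of
all the points in these fibres (so `F ≥ D` for each reduced divisor `D` mapped to the `a_k`). Let `A`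
be the ring of functions on `X` with poles only over `∞`: a Dedekind domain, finite over `ℚ[t]`. The
points `P` of `X` (not over `∞`) over a number field `L` are the homomorphisms `φ : A → L`. We describe
`F` by finitely many ideals `I_l = (z_{l 0}, z_{l 1}, …)`, where `z_{l 0} = t - a_{j(l)}`, such that for
each `k` the product of the `I_l` with `j(l) = k` is contained in the radical of `(t - a_k)`: for example
the prime ideals of the points of `F`, or the ideals of the reduced fibres. Then
`λ_v(P) = ∑_l max(0, - log max_i |z_{l i}(P)|_v)` is, for these two examples, a Weil function of `F` at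
`v`, and `(deg K_X) / N = q - 2 - (∑_l dim (A / I_l)) / N` by the Riemann-Hurwitz formula.

Let `K` be a number field of degree `d`. We approximate the points `y` of the real vector space
`K ⊗ ℝ = ℝ^r × ℂ^s` (for `K = ℚ`: the real numbers `y`) by elements `x` of `K`, `H(x)` the height of `x`
relative to `K`. There is `c > 0` (depending on `A`, the `a_k`, the `z_l`, `K`, `κ > 0`, `C₀`) such that for
all `y` outside a set `E` of Hausdorff dimension at most `(2 - c) / τ`, for ALL but finitely many `x ∈ K`
with `|y - x| ≤ C H(x) ^ (-τ)` (any `C`), ALL number fields `L ⊇ K`, all points `P` of `X` over `L` with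
`t(P) = x` and all finite sets `S` of primes satisfy

  `m_S(F, P) + h_{K_X}(P) + (2 - κ) h(x) ≤ d(L) + ∑_{p ∈ S} log p + C₀`,

where `h_{K_X}(P)` is `(deg K_X) / N` times `h(x)`: Vojta's inequality, with `2 - κ` in place of `-ε`.
For `K = ℚ` and for imaginary quadratic `K` every `y` not in `K` has infinitely many approximations with
`τ = 2 / d`, by Dirichlet's theorem (for `K = ℚ`: all the convergents `x` of `y`), while `E` is a null set
for all `τ > (2 - c) / d`: the inequality holds for all the algebraic points above all but finitely many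
of the convergents, for almost all `y`.

**Covers of projective space.** Let `F_0, …, F_{q-1}` be forms of degree `k` in `n + 1` variables over
the integers of `K`, irreducible over `K`, pairwise not associated, without a common zero in `ℙⁿ`, and
for `M ≥ 1` let `X_M` be the cover `(y_0 ^ M : … : y_{q-1} ^ M) = (F_0(x) : … : F_{q-1}(x))` of `ℙⁿ`, `D` the
divisor `y_0 ⋯ y_{q-1} = 0` on `X_M`. If the hypersurfaces `F_j = 0` have normal crossings, then `X_M` is
smooth and `D` has normal crossings, and Vojta's inequality for the algebraic points `P = (x, y)` of `X_M`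
is `(θ M - q) h(y) + ∑_{ν ∈ S} λ_D(P, ν) ≤ d_K(P) + c₀` with `θ = q - (n + 1) / k - ε`. We prove it for all
`θ` with `θ k < ∑ m_j` (for hyperplanes and quadrics: for all `θ < q`) for ALL algebraic points of ALL
covers `X_M`, `M ≥ 1`, above all but finitely many of the points `(1 : x)`, `x ∈ Kⁿ`, with
`|z - x| ≤ C H(x) ^ (-τ)`, for all `z ∈ (K ⊗ ℝ)ⁿ` outside a set of Hausdorff dimension at most
`(n + 1 - c) / τ`.

The good approximations of a point are a very sparse set, and so these results do not follow from
bounds for the number of the exceptional points alone. The proof combines the pointwise inequalities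
on curves (`W223/AC`, used in `AllCurvesProximity`) and covers (`TH905/VF`), the bound
`O(B ^ (n + 1 - c))` of `R366/NF` for the number of exceptional `x ∈ Kⁿ` of height at most `B`, and the
bound for the Hausdorff dimension of sets of well approximable points of `R479/DB` (all from the
starting files).
-/

set_option autoImplicit false

namespace Pool.Agent.Results.MP_71c16a_nt.ApproximationsOfRealPoints

open IsDedekindDomain NumberField

/-! ### The good approximations -/

section approx

variable {K : Type} [Field K] [NumberField K] {n : ℕ}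

open scoped Classical in
/-- the distance of `z ∈ (K ⊗ ℝ)ⁿ` and `x ∈ Kⁿ`: the maximum of `|z_i - x_i|_w` over all the coordinates
and the archimedean places `w` -/
noncomputable def distance (z : Fin n → mixedEmbedding.mixedSpace K) (x : Fin n → K) : ℝ :=
  dist z (fun i => mixedEmbedding K (x i))

/-- the homogeneous coordinates `(1 : x_1 : … : x_n)` of the point `x` -/
def coords (x : Fin n → K) : Fin (n + 1) → K := Fin.cons 1 x

open scoped Classical in
/-- There is `c > 0` such that for all `τ > 0` there is a set `E` of points of `(K ⊗ ℝ)ⁿ` of Hausdorff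
dimension at most `(n + 1 - c) / τ`, and of Haar measure zero if this is less than `n [K : ℚ]`, such that
for all `z` not in `E` and all `C`, all but finitely many `x ∈ Kⁿ` with `|z - x| ≤ C H(x) ^ (-τ)` have the
property `P`. -/
def HoldsNearMost (P : (Fin n → K) → Prop) : Prop :=
  ∃ c : ℝ, 0 < c ∧ ∀ τ : ℝ, 0 < τ → ∃ E : Set (Fin n → mixedEmbedding.mixedSpace K),
    dimH E ≤ ENNReal.ofReal (((n : ℝ) + 1 - c) / τ) ∧
    (((n : ℝ) + 1 - c) / τ < n * Module.finrank ℚ K →
      ∀ μ : MeasureTheory.Measure (Fin n → mixedEmbedding.mixedSpace K),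
        μ.IsAddHaarMeasure → μ E = 0) ∧
    ∀ z, z ∉ E → ∀ C : ℝ, {x : Fin n → K |
      distance z x ≤ C * Height.mulHeight (coords x) ^ (-τ) ∧ ¬ P x}.Finite

end approx

/-! ### Curves -/

section curves

open Polynomial

/-- The absolute logarithmic Weil height `h(x)`. -/
noncomputable def height {K : Type} [Field K] [NumberField K] (x : K) : ℝ :=
  (1 / (Module.finrank ℚ K : ℝ)) *
    ((∑ w : InfinitePlace K, (w.mult : ℝ) * Real.log (max 1 (w x))) +
      ∑ᶠ v : HeightOneSpectrum (RingOfIntegers K), Real.log (max 1 (FinitePlace.mk v x)))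

/-- the function `t` -/
noncomputable def coord (A : Type) [CommRing A] [Algebra ℚ[X] A] : A := algebraMap ℚ[X] A X

/-- `max (0, - log max_i c_i)` -/
noncomputable def minusLog {s : ℕ} (c : Fin (s + 1) → ℝ) : ℝ := max 0 (-Real.log (⨆ i, c i))

open Classical in
/-- The proximity function `m_S(F, P)`: the sum over the infinite places `w` (with
`mult w = [L_w : ℝ]`) and the primes `v` above the primes of `S` of the local heights
`∑_l max (0, - log max_i |z_{l i}(P)|)`, divided by `[L : ℚ]`. The absolute values are normalised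
so that the product formula holds: `|b|_v = N(v) ^ (- v(b))`. -/
noncomputable def proximity {A : Type} [CommRing A] (S : Finset ℕ)
    {n : ℕ} (s : Fin n → ℕ) (z : ∀ l, Fin (s l + 1) → A)
    (L : Type) [Field L] [NumberField L] (φ : A →+* L) : ℝ :=
  ((∑ w : InfinitePlace L, (w.mult : ℝ) * ∑ l, minusLog (fun i => w (φ (z l i)))) +
    ∑ᶠ v : HeightOneSpectrum (𝓞 L), if ∃ p ∈ S, (p : 𝓞 L) ∈ v.asIdeal then
      ∑ l, minusLog (fun i => FinitePlace.mk v (φ (z l i))) else 0) / Module.finrank ℚ L

/-- The logarithmic discriminant `log |disc L| / [L : ℚ]`. -/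
noncomputable def logDisc (L : Type) [Field L] [NumberField L] : ℝ :=
  Real.log |(NumberField.discr L : ℝ)| / Module.finrank ℚ L

/-- `q - 2 - (∑_l dim (A / I_l)) / N`, where `N` is the rank of `A` over `ℚ[t]` and
`I_l = (z_{l 0}, z_{l 1}, …)`. It is `(deg K_X) / N` if `t` is unramified outside the fibres over the
`a_k` and the `I_l` are the ideals of the points of these fibres, or of the reduced fibres. -/
noncomputable def canonicalDegree {A : Type} [CommRing A] [Algebra ℚ A] [Algebra ℚ[X] A] (q : ℕ)
    {n : ℕ} (s : Fin n → ℕ) (z : ∀ l, Fin (s l + 1) → A) : ℝ :=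
  q - 2 - (∑ l, (Module.finrank ℚ (A ⧸ Ideal.span (Set.range (z l))) : ℝ)) / Module.finrank ℚ[X] A

/-- All points above `x`: for all number fields `L` containing `K`, all points `P = φ` of the curve
over `L` with `t(P) = x` and all finite sets `S` of primes,
`m_S(F, P) + (deg K_X / N) h(x) + (2 - κ) h(x) ≤ d(L) + ∑_{p ∈ S} log p + C₀`. -/
def VojtaAbove {A : Type} [CommRing A] [Algebra ℚ A] [Algebra ℚ[X] A] (q : ℕ)
    {n : ℕ} (s : Fin n → ℕ) (z : ∀ l, Fin (s l + 1) → A) {K : Type} [Field K] [NumberField K]
    (κ C₀ : ℝ) (x : K) : Prop :=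
  ∀ (L : Type) [Field L] [NumberField L] [Algebra K L] (φ : A →+* L) (S : Finset ℕ),
    φ (coord A) = algebraMap K L x → (∀ p ∈ S, p.Prime) →
      proximity S s z L φ + canonicalDegree q s z * height x + (2 - κ) * height x ≤
        logDisc L + ∑ p ∈ S, Real.log p + C₀

/-- The `a_k` are distinct, `z_{l 0} = t - a_{j(l)}`, and for each `k` the product of the ideals
`I_l = (z_{l 0}, z_{l 1}, …)` with `j(l) = k` is contained in the radical of `(t - a_k)`. -/
structure IsBranchData {A : Type} [CommRing A] [Algebra ℚ[X] A] {q : ℕ} (a : Fin q → ℚ)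
    {n : ℕ} (j : Fin n → Fin q) (s : Fin n → ℕ) (z : ∀ l, Fin (s l + 1) → A) : Prop where
  inj : Function.Injective a
  first : ∀ l, z l 0 = coord A - algebraMap ℚ[X] A (C (a (j l)))
  cover : ∀ k : Fin q, ∏ l with j l = k, Ideal.span (Set.range (z l)) ≤
    (Ideal.span {coord A - algebraMap ℚ[X] A (C (a k))}).radical

open Classical in
lemma proximity_eq {A : Type} [CommRing A] (S : Finset ℕ)
    {n : ℕ} (s : Fin n → ℕ) (z : ∀ l, Fin (s l + 1) → A)
    (L : Type) [Field L] [NumberField L] (φ : A →+* L)
    (hf : ∀ l, {v : HeightOneSpectrum (𝓞 L) | Pool.Agent.W223.AC.lamF (z l) φ v ≠ 0}.Finite) :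
    proximity S s z L φ = Pool.Agent.J4.H74.CurvLM.prox S s z L φ := by
  unfold proximity Pool.Agent.J4.H74.CurvLM.prox
  refine congrArg (fun t : ℝ => t / Module.finrank ℚ L) ?_
  rw [Finset.sum_add_distrib]
  congr 1
  · rw [Finset.sum_comm]
    refine Finset.sum_congr rfl fun w _ => ?_
    rw [Finset.mul_sum]
    rfl
  · unfold Pool.Agent.W223.AC.mS
    rw [← finsum_sum_comm]
    · refine finsum_congr fun v => ?_
      split_ifs
      · rfl
      · rw [Finset.sum_const_zero]
    · intro l _
      refine (hf l).subset fun v hv => ?_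
      rw [Function.mem_support] at hv
      intro h
      apply hv
      rw [h, ite_self]

end curves

/-! ### Covers of projective space -/

section covers

open MvPolynomial

/-- `F` is, up to a constant factor, the norm form of `∑ α i * x i` from an extension `E` of `K`, and
`m` of the `α i` are linearly independent over `K`. -/
def IsNormForm {K : Type} [Field K] [NumberField K] {n : ℕ} (F : MvPolynomial (Fin (n + 1)) (𝓞 K))
    (m : ℕ) : Prop :=
  ∃ (E : Type) (_ : Field E) (_ : NumberField E) (_ : Algebra K E) (c : K) (α : Fin (n + 1) → E)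
    (J : Finset (Fin (n + 1))), c ≠ 0 ∧ J.card = m ∧
      LinearIndependent K (fun j : J => α j) ∧
      ∀ x : Fin (n + 1) → 𝓞 K, ((eval x F : 𝓞 K) : K) =
        c * Algebra.norm K (∑ i, algebraMap K E (x i) * α i)

/-- The logarithmic height, relative to `K`, of the point with homogeneous coordinates `y` in the
extension `L` of `K`. -/
noncomputable def relHeight (K : Type) {L : Type} [Field K] [NumberField K] [Field L] [NumberField L]
    [Algebra K L] {q : ℕ} (y : Fin q → L) : ℝ := Height.logHeight y / Module.finrank K L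

/-- The logarithmic discriminant `log |disc L| / [L : K] - log |disc K|`. -/
noncomputable def relLogDisc (K L : Type) [Field K] [NumberField K] [Field L] [NumberField L]
    [Algebra K L] : ℝ :=
  Real.log |(discr L : ℝ)| / Module.finrank K L - Real.log |(discr K : ℝ)|

/-- The local Weil function `∑ i, log (max_j |y_j| / |y_i|)` of the divisor `y_0 ⋯ y_{q-1} = 0`, for an
absolute value. -/
noncomputable def weil {L : Type} [Field L] {q : ℕ} (f : AbsoluteValue L ℝ) (y : Fin q → L) : ℝ :=
  ∑ i, Real.log ((⨆ j, f (y j)) / f (y i))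

/-- The proximity function `∑_{ν ∈ S} λ_D(P, ν)`, relative to `K`, where `S` consists of the
archimedean places and of the primes in the finite set `S`: the sum of the local Weil functions over
the infinite places `w` of `L` (with the factor `[L_w : ℝ]`) and over the primes of `L` above the
primes in `S` (with the absolute value `N(w) ^ (- ord_w)`), divided by `[L : K]`. -/
noncomputable def relProximity {K L : Type} [Field K] [NumberField K] [Field L] [NumberField L]
    [Algebra K L] {q : ℕ} (S : Finset (HeightOneSpectrum (𝓞 K))) (y : Fin q → L) : ℝ :=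
  (∑ w : InfinitePlace L, (w.mult : ℝ) * weil w.1 y +
    ∑ᶠ w ∈ {w : HeightOneSpectrum (𝓞 L) | ∃ v ∈ S, w.asIdeal.LiesOver v.asIdeal},
      weil (FinitePlace.mk w).1 y) / Module.finrank K L

/-- All algebraic points `P = (x, y)` of all covers `X_M`, `M ≥ 1`, above the point with homogeneous
coordinates `x` in `K`: for each number field `L` containing `K`, all `y` in `L ^ q` and `t ≠ 0` in `L`
with `y_j ^ M = t F_j(x)` for all `j`,
`(θ M - q) h(y) + ∑_{ν ∈ S} λ_D(P, ν) ≤ d_K(L) + c₀`. -/
def VojtaAboveCovers {K : Type} [Field K] [NumberField K] {n q : ℕ}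
    (S : Finset (HeightOneSpectrum (𝓞 K))) (F : Fin q → MvPolynomial (Fin (n + 1)) (𝓞 K))
    (θ c₀ : ℝ) (x : Fin (n + 1) → K) : Prop :=
  ∀ (M : ℕ) (L : Type) [Field L] [NumberField L] [Algebra K L] (y : Fin q → L) (t : L),
    1 ≤ M → t ≠ 0 → (∀ j, y j ^ M = t * algebraMap K L (aeval x (F j))) →
      (θ * M - q) * relHeight K y + relProximity S y ≤ relLogDisc K L + c₀

/-- The `F_j` are forms of degree `k`, irreducible over `K`, pairwise not associated and without common
zeros in `ℙⁿ` (each variable is in the radical of the ideal generated by them), with weights `m_j`: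
`m_j ≤ 1`, or `m_j ≤ k ≤ 2`, or `F_j` is a norm form of linear forms spanning a space of dimension
`m_j`. -/
structure IsFormData {K : Type} [Field K] [NumberField K] {n q : ℕ}
    (F : Fin q → MvPolynomial (Fin (n + 1)) (𝓞 K)) (k : ℕ) (m : Fin q → ℕ) : Prop where
  hom : ∀ j, (F j).IsHomogeneous k
  irr : ∀ j, Irreducible (map (algebraMap (𝓞 K) K) (F j))
  dist : ∀ i j, i ≠ j →
    ¬ Associated (map (algebraMap (𝓞 K) K) (F i)) (map (algebraMap (𝓞 K) K) (F j))
  weight : ∀ j, m j ≤ 1 ∨ (m j ≤ k ∧ k ≤ 2) ∨ IsNormForm (F j) (m j)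
  null : ∀ i, (X i : MvPolynomial (Fin (n + 1)) K) ∈
    (Ideal.span (Set.range fun j => map (algebraMap (𝓞 K) K) (F j))).radical

end covers

open Polynomial in
/-- **Vojta's inequality for the algebraic points above the good rational approximations of almost all
real points: curves and covers of projective space.**

(1) Let `A` be a Dedekind domain, finite over `ℚ[t]` and containing it (the ring of functions of a smooth
affine curve which is finite over the `t`-line), of rank `N`, let `a_0, …, a_{q-1}` be distinct rational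
numbers, and `I_l = (z_{l 0}, z_{l 1}, …)`, `l < n`, ideals with `z_{l 0} = t - a_{j(l)}` such that for each
`k` the product of the `I_l` with `j(l) = k` is contained in the radical of `(t - a_k)`. Let `K` be a number
field, `0 < κ ≤ q` and `C₀` real. There is `c > 0` such that for all `τ > 0` there is a set `E` of
points of `K ⊗ ℝ` of Hausdorff dimension at most `(2 - c) / τ`, and of Haar measure zero if this is less
than `[K : ℚ]`, such that for all `y` not in `E` and all `C`, all but finitely many `x ∈ K` with
`|y - x| ≤ C H(x) ^ (-τ)` are none of the `a_k`, and all number fields `L` containing `K`, all points `P` of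
the curve over `L` with `t(P) = x` and all finite sets `S` of primes satisfy
`m_S(F, P) + (deg K_X / N) h(x) + (2 - κ) h(x) ≤ d(L) + ∑_{p ∈ S} log p + C₀`.

(2) Let `F_j`, `j < q`, be forms of the same degree `k` over the integers of the number field `K` in
`n + 1` variables, irreducible over `K`, pairwise not associated and without common zeros in `ℙⁿ`
(that is, each variable is in the radical of the ideal generated by them), with weights `m_j`
(`m_j ≤ 1`, or `m_j ≤ k ≤ 2`, or `F_j` is a norm form of linear forms spanning a space of dimension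
`m_j`), `S` a finite set of primes of `K`, `c₀` real, `θ ≥ 0` and `θ k < ∑ m_j`. There is `c > 0` such that
for all `τ > 0` there is a set `E` of points of `(K ⊗ ℝ)ⁿ` of Hausdorff dimension at most
`(n + 1 - c) / τ`, and of Haar measure zero if this is less than `n [K : ℚ]`, such that for all `z` not in
`E` and all `C`, all but finitely many `x ∈ Kⁿ` with `|z - x| ≤ C H(x) ^ (-τ)` satisfy `F_j(1, x) ≠ 0` for all
`j` and `VojtaAboveCovers S F θ c₀ (1, x)`: Vojta's inequality holds for all algebraic points above
`(1 : x)` of all the covers `X_M`. -/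
theorem result :
    (∀ (A : Type) [CommRing A] [IsDedekindDomain A] [Algebra ℚ A] [Algebra ℚ[X] A]
      [IsScalarTower ℚ ℚ[X] A] [Module.Finite ℚ[X] A] [FaithfulSMul ℚ[X] A]
      (q : ℕ) (a : Fin q → ℚ) (n : ℕ) (j : Fin n → Fin q) (s : Fin n → ℕ)
      (z : ∀ l, Fin (s l + 1) → A), IsBranchData a j s z →
    ∀ (K : Type) [Field K] [NumberField K] (κ C₀ : ℝ), 0 < κ → κ ≤ q →
      HoldsNearMost fun x : Fin 1 → K => (∀ k, x 0 ≠ (a k : K)) ∧ VojtaAbove q s z κ C₀ (x 0)) ∧
    (∀ (K : Type) [Field K] [NumberField K] (n q : ℕ)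
      (F : Fin q → MvPolynomial (Fin (n + 1)) (𝓞 K)) (k : ℕ) (m : Fin q → ℕ), IsFormData F k m →
    ∀ (S : Finset (HeightOneSpectrum (𝓞 K))) (θ c₀ : ℝ), 0 ≤ θ → θ * k < ∑ j, (m j : ℝ) →
      HoldsNearMost fun x : Fin n → K => (∀ j, MvPolynomial.aeval (coords x) (F j) ≠ 0) ∧
        VojtaAboveCovers S F θ c₀ (coords x)) := by
  refine ⟨?_, ?_⟩
  · intro A _ _ _ _ _ _ _ q a n j s z hz K _ _ κ C₀ hκ hκq
    obtain ⟨c, hc, hc1, C', hC', hcount⟩ := Pool.Agent.J4.H35.VojA.count_curve A a hz.inj j s z
      hz.first hz.cover K κ C₀ hκ hκq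
    refine ⟨c, hc, fun τ hτ => ?_⟩
    obtain ⟨E, hE1, hE2, hE3⟩ := Pool.Agent.J4.H35.VojA.metric
      (fun x : Fin 1 → K => (∀ k, x 0 ≠ (a k : K)) ∧ VojtaAbove q s z κ C₀ (x 0)) hc1 hC' (by
        intro B hB
        obtain ⟨h1, h2⟩ := hcount B hB
        have hsub : {x : Fin 1 → K | ¬ ((∀ k, x 0 ≠ (a k : K)) ∧ VojtaAbove q s z κ C₀ (x 0)) ∧
            Height.mulHeight (Pool.Agent.J4.H74.VojBA.hom x) ≤ B} ⊆
            {x : Fin 1 → K | ¬ Pool.Agent.J4.H35.VojA.GoodX a s z κ C₀ (x 0) ∧
              Height.mulHeight (Pool.Agent.J4.H74.VojBA.hom x) ≤ B} := by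
          rintro x ⟨hx1, hx2⟩
          refine ⟨fun hg => hx1 ⟨hg.1, ?_⟩, hx2⟩
          intro L _ _ _ φ S hφ hS
          obtain ⟨hfin, h1⟩ := hg.2 L φ S hφ hS
          rw [proximity_eq S s z L φ hfin]
          have e1 : height (x 0) =
              Pool.Agent.Results.MP_f5a5f7_nt.FewExceptions.height (x 0) := rfl
          rw [e1]
          unfold canonicalDegree logDisc
          linarith
        refine ⟨h1.subset hsub, le_trans ?_ h2⟩
        exact_mod_cast Set.ncard_le_ncard hsub h1) τ hτ
    exact ⟨E, hE1, hE2, fun y hy C => hE3 y hy C⟩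
  · intro K _ _ n q F k m hF S θ c₀ hθ0 hθ
    obtain ⟨c, hc, hc1, C', hC', hcount⟩ := Pool.Agent.J4.H35.VojA.count_cover F k m hF.hom hF.irr
      hF.dist hF.weight hF.null S θ c₀ hθ0 hθ
    refine ⟨c, hc, fun τ hτ => ?_⟩
    obtain ⟨E, hE1, hE2, hE3⟩ := Pool.Agent.J4.H35.VojA.metric
      (fun x : Fin n → K => (∀ j, MvPolynomial.aeval (coords x) (F j) ≠ 0) ∧
          VojtaAboveCovers S F θ c₀ (coords x)) hc1 hC' (by
        intro B hB
        obtain ⟨h1, h2⟩ := hcount B hB
        have hsub : {x : Fin n → K | ¬ ((∀ j, MvPolynomial.aeval (coords x) (F j) ≠ 0) ∧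
          VojtaAboveCovers S F θ c₀ (coords x)) ∧
            Height.mulHeight (Pool.Agent.J4.H74.VojBA.hom x) ≤ B} ⊆
            {x : Fin n → K | ¬ ((∀ j, MvPolynomial.aeval (Pool.Agent.J4.H74.VojBA.hom x) (F j) ≠ 0) ∧
              ¬ Pool.Agent.J4.H74.FermLM.Viol S θ c₀
                (fun j => MvPolynomial.aeval (Pool.Agent.J4.H74.VojBA.hom x) (F j))) ∧
              Height.mulHeight (Pool.Agent.J4.H74.VojBA.hom x) ≤ B} := by
          rintro x ⟨hx1, hx2⟩
          refine ⟨fun hg => hx1 ⟨hg.1, ?_⟩, hx2⟩
          intro M L _ _ _ y t hM ht hy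
          by_contra hcon
          rw [not_le] at hcon
          exact hg.2 ⟨M, L, _, _, _, y, t, hM, ht, hy, hcon⟩
        refine ⟨h1.subset hsub, le_trans ?_ h2⟩
        exact_mod_cast Set.ncard_le_ncard hsub h1) τ hτ
    exact ⟨E, hE1, hE2, fun z hz C => hE3 z hz C⟩

end Pool.Agent.Results.MP_71c16a_nt.ApproximationsOfRealPoints
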