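import Pool.Agent.J4.H74.CurvLM

/-!
# Vojta's conjecture for the algebraic points of all curves above quotients of values of
multiplicative functions

Let `X` be a smooth projective curve over a number field, `t : X → ℙ¹` a finite map of degree `N` over
`ℚ` which is unramified outside the fibres over `q` rational points `a_0, …, a_{q-1}` (such a map
exists, with `q = 3`, by Belyi's theorem; we may suppose that `a_k ≠ ∞`), and let `F` be the sum of
all the points in these fibres (so `F ≥ D` for each reduced divisor `D` mapped to the `a_k`). Let `A`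
be the ring of functions on `X` with poles only over `∞`: a Dedekind domain, finite over `ℚ[t]`. The
points `P` of `X` (not over `∞`) over a number field `L` are the homomorphisms `φ : A → L`. We describe
`F` by finitely many ideals `I_l = (z_{l 0}, z_{l 1}, …)`, where `z_{l 0} = t - a_{j(l)}`, such that for
each `k` the product of the `I_l` with `j(l) = k` is contained in the radical of `(t - a_k)`: for example
the prime ideals of the points of `F`, or the ideals of the reduced fibres. Then
`λ_v(P) = ∑_l max(0, - log max_i |z_{l i}(P)|_v)` is, for these two examples, a Weil function of `F` at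
`v`, and `(deg K_X) / N = q - 2 - (∑_l dim (A / I_l)) / N` by the Riemann-Hurwitz formula.

Let `K` be a number field of degree `d` with integral basis `ω_1, …, ω_d`, and `f_{il}`, `i ≤ 1`, `2d`
multiplicative functions from the class described below, for example Euler's function and the sum of
the divisors. We consider the elements `x = (∑_l f_{0l}(b_{0l}) ω_l) / (∑_l f_{1l}(b_{1l}) ω_l)` of `K`
(for `K = ℚ`: `x = f(b) / g(c)`, for example `φ(b) / φ(c)`), and all the quotients of integers near these
numerators and denominators. For each `κ > 0`, for all tuples `b` in `[1, N] ^ (2 d)` with the exception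
of at most `N ^ (2 d) / (log N) ^ U`, for all these `x`, ALL number fields `L ⊇ K`, all points `P` of `X`
over `L` with `t(P) = x` and all finite sets `S` of primes satisfy

  `m_S(F, P) + h_{K_X}(P) + (2 - κ) h(x) ≤ d(L) + ∑_{p ∈ S} log p + C₀`,

where `h_{K_X}(P)` is `(deg K_X) / N` times `h(x)`: Vojta's inequality, with `2 - κ` in place of `-ε`.

The values of `f_{il}` are taken with very large multiplicities (and have density zero), so this does not
follow from bounds for the number of exceptional `x`. The proof combines the inequality for curves of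
`W223/AC` (used in `AllCurvesProximity`), the sparse exceptional sets of `R366/NF` and the theorem
`keep_tuples2` of `N733/TG` (all from the starting files).
-/

set_option autoImplicit false

namespace Pool.Agent.Results.MP_71c16a_nt.CurvesMultiplicativeValues

open Polynomial IsDedekindDomain NumberField

/-- `f` is multiplicative, positive and of polynomial growth, and for the large primes `p` we have
`f(p) ≤ M p`, and different large primes have different values -/
structure LinearAtPrimes (f : ℕ → ℕ) : Prop where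
  mul : ∀ m n : ℕ, Nat.Coprime m n → f (m * n) = f m * f n
  pos : ∀ m : ℕ, 1 ≤ m → 1 ≤ f m
  growth : ∃ C D : ℕ, ∀ m : ℕ, 1 ≤ m → f m ≤ C * m ^ D
  prime : ∃ P M : ℕ, ∀ p : ℕ, P ≤ p → p.Prime →
    f p ≤ M * p ∧ ∀ q : ℕ, P ≤ q → q.Prime → f q = f p → q = p

/-- The absolute logarithmic Weil height `h(x)`. -/
noncomputable def height {K : Type} [Field K] [NumberField K] (x : K) : ℝ :=
  (1 / (Module.finrank ℚ K : ℝ)) *
    ((∑ w : InfinitePlace K, (w.mult : ℝ) * Real.log (max 1 (w x))) +
      ∑ᶠ v : HeightOneSpectrum (RingOfIntegers K), Real.log (max 1 (FinitePlace.mk v x)))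

/-- the function `t` -/
noncomputable def coord (A : Type) [CommRing A] [Algebra ℚ[X] A] : A := algebraMap ℚ[X] A X

/-- `max (0, - log max_i c_i)` -/
noncomputable def minusLog {s : ℕ} (c : Fin (s + 1) → ℝ) : ℝ := max 0 (-Real.log (⨆ i, c i))

open Classical in
/-- The proximity function `m_S(F, P)`: the sum over the infinite places `w` (with
`mult w = [L_w : ℝ]`) and the primes `v` above the primes of `S` of the local heights
`∑_l max (0, - log max_i |z_{l i}(P)|)`, divided by `[L : ℚ]`. The absolute values are normalised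
so that the product formula holds: `|b|_v = N(v) ^ (- v(b))`. -/
noncomputable def proximity {A : Type} [CommRing A] (S : Finset ℕ)
    {n : ℕ} (s : Fin n → ℕ) (z : ∀ l, Fin (s l + 1) → A)
    (L : Type) [Field L] [NumberField L] (φ : A →+* L) : ℝ :=
  ((∑ w : InfinitePlace L, (w.mult : ℝ) * ∑ l, minusLog (fun i => w (φ (z l i)))) +
    ∑ᶠ v : HeightOneSpectrum (𝓞 L), if ∃ p ∈ S, (p : 𝓞 L) ∈ v.asIdeal then
      ∑ l, minusLog (fun i => FinitePlace.mk v (φ (z l i))) else 0) / Module.finrank ℚ L

/-- The logarithmic discriminant `log |disc L| / [L : ℚ]`. -/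
noncomputable def logDisc (L : Type) [Field L] [NumberField L] : ℝ :=
  Real.log |(NumberField.discr L : ℝ)| / Module.finrank ℚ L

/-- `q - 2 - (∑_l dim (A / I_l)) / N`, where `N` is the rank of `A` over `ℚ[t]` and
`I_l = (z_{l 0}, z_{l 1}, …)`. It is `(deg K_X) / N` if `t` is unramified outside the fibres over the
`a_k` and the `I_l` are the ideals of the points of these fibres, or of the reduced fibres. -/
noncomputable def canonicalDegree {A : Type} [CommRing A] [Algebra ℚ A] [Algebra ℚ[X] A] (q : ℕ)
    {n : ℕ} (s : Fin n → ℕ) (z : ∀ l, Fin (s l + 1) → A) : ℝ :=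
  q - 2 - (∑ l, (Module.finrank ℚ (A ⧸ Ideal.span (Set.range (z l))) : ℝ)) / Module.finrank ℚ[X] A

/-- All points above `x`: for all number fields `L` containing `K`, all points `P = φ` of the curve
over `L` with `t(P) = x` and all finite sets `S` of primes,
`m_S(F, P) + (deg K_X / N) h(x) + (2 - κ) h(x) ≤ d(L) + ∑_{p ∈ S} log p + C₀`. -/
def VojtaAbove {A : Type} [CommRing A] [Algebra ℚ A] [Algebra ℚ[X] A] (q : ℕ)
    {n : ℕ} (s : Fin n → ℕ) (z : ∀ l, Fin (s l + 1) → A) {K : Type} [Field K] [NumberField K]
    (κ C₀ : ℝ) (x : K) : Prop :=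
  ∀ (L : Type) [Field L] [NumberField L] [Algebra K L] (φ : A →+* L) (S : Finset ℕ),
    φ (coord A) = algebraMap K L x → (∀ p ∈ S, p.Prime) →
      proximity S s z L φ + canonicalDegree q s z * height x + (2 - κ) * height x ≤
        logDisc L + ∑ p ∈ S, Real.log p + C₀

/-- the indices of the integral basis of `K` -/
abbrev Idx (K : Type) [Field K] [NumberField K] : Type := Module.Free.ChooseBasisIndex ℤ (𝓞 K)

open Classical in
lemma proximity_eq {A : Type} [CommRing A] (S : Finset ℕ)
    {n : ℕ} (s : Fin n → ℕ) (z : ∀ l, Fin (s l + 1) → A)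
    (L : Type) [Field L] [NumberField L] (φ : A →+* L)
    (hf : ∀ l, {v : HeightOneSpectrum (𝓞 L) | Pool.Agent.W223.AC.lamF (z l) φ v ≠ 0}.Finite) :
    proximity S s z L φ = Pool.Agent.J4.H74.CurvLM.prox S s z L φ := by
  unfold proximity Pool.Agent.J4.H74.CurvLM.prox
  refine congrArg (fun t : ℝ => t / Module.finrank ℚ L) ?_
  rw [Finset.sum_add_distrib]
  congr 1
  · rw [Finset.sum_comm]
    refine Finset.sum_congr rfl fun w _ => ?_
    rw [Finset.mul_sum]
    rfl
  · unfold Pool.Agent.W223.AC.mS
    rw [← finsum_sum_comm]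
    · refine finsum_congr fun v => ?_
      split_ifs
      · rfl
      · rw [Finset.sum_const_zero]
    · intro l _
      refine (hf l).subset fun v hv => ?_
      rw [Function.mem_support] at hv
      intro h
      apply hv
      rw [h, ite_self]

/-- **Vojta's inequality for the points of all curves above (near) quotients of values of
multiplicative functions.** Let `A` be a Dedekind domain, finite over `ℚ[t]` and containing it (the ring
of functions of a smooth affine curve which is finite over the `t`-line), of rank `N`, let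
`a_0, …, a_{q-1}` be distinct rational numbers, and `I_l = (z_{l 0}, z_{l 1}, …)`, `l < n`, ideals with
`z_{l 0} = t - a_{j(l)}` such that for each `k` the product of the `I_l` with `j(l) = k` is contained in the
radical of `(t - a_k)`. Let `K` be a number field of degree `d`, `0 < κ ≤ q` and `C₀` real. There is
`η > 0` such that for all functions `f_{il}` which are `LinearAtPrimes`, all `U` and all large `N`: for
all `b = (b_{il})`, `1 ≤ b_{il} ≤ N`, with at most `N ^ (2 d) / (log N) ^ U` exceptions, for ALL integers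
`y_0, y_1` of `K` whose coordinates with respect to the integral basis are within `f_{il}(b_{il}) ^ η` of
`f_{il}(b_{il})`, `y_1 ≠ 0`, `x = y_0 / y_1` is none of the `a_k`, and all number fields `L` containing
`K`, all points `P` of the curve over `L` with `t(P) = x` and all finite sets `S` of primes satisfy
`m_S(F, P) + (deg K_X / N) h(x) + (2 - κ) h(x) ≤ d(L) + ∑_{p ∈ S} log p + C₀`. Euler's function and
the sum of the divisors are `LinearAtPrimes`. -/
theorem result :
    (∀ (A : Type) [CommRing A] [IsDedekindDomain A] [Algebra ℚ A] [Algebra ℚ[X] A]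
      [IsScalarTower ℚ ℚ[X] A] [Module.Finite ℚ[X] A] [FaithfulSMul ℚ[X] A]
      (q : ℕ) (a : Fin q → ℚ), Function.Injective a →
    ∀ (n : ℕ) (j : Fin n → Fin q) (s : Fin n → ℕ) (z : ∀ l, Fin (s l + 1) → A),
    (∀ l, z l 0 = coord A - algebraMap ℚ[X] A (C (a (j l)))) →
    (∀ k : Fin q, ∏ l with j l = k, Ideal.span (Set.range (z l)) ≤
      (Ideal.span {coord A - algebraMap ℚ[X] A (C (a k))}).radical) →
    ∀ (K : Type) [Field K] [NumberField K] (κ C₀ : ℝ), 0 < κ → κ ≤ q →
    ∃ η : ℝ, 0 < η ∧ ∀ f : Fin (1 + 1) × Idx K → ℕ → ℕ, (∀ w, LinearAtPrimes (f w)) → ∀ U : ℕ,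
      ∃ N₀ : ℕ, ∀ N : ℕ, N₀ ≤ N →
        (Set.ncard {b : Fin (1 + 1) × Idx K → ℕ | (∀ w, 1 ≤ b w ∧ b w ≤ N) ∧
          ¬ ∀ y : Fin (1 + 1) → 𝓞 K,
            (∀ i l, |(((RingOfIntegers.basis K).repr (y i) l : ℤ) : ℝ) - f (i, l) (b (i, l))| ≤
              (f (i, l) (b (i, l)) : ℝ) ^ η) →
            y 1 ≠ 0 ∧ (∀ k, (y 0 : K) / (y 1 : K) ≠ (a k : K)) ∧
              VojtaAbove q s z κ C₀ ((y 0 : K) / (y 1 : K))} : ℝ) ≤
          (N : ℝ) ^ ((1 + 1) * Module.finrank ℚ K) / Real.log N ^ U) ∧
    LinearAtPrimes Nat.totient ∧ LinearAtPrimes (fun m => ∑ d ∈ m.divisors, d) := by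
  refine ⟨?_, ?_, ?_⟩
  · intro A _ _ _ _ _ _ _ q a ha n j s z hz hcov K _ _ κ C₀ hκ hκq
    obtain ⟨η, hη, h⟩ := Pool.Agent.J4.H74.FermLM.lm_of_sparse
      (fun y : Fin (1 + 1) → 𝓞 K => y 1 ≠ 0 ∧ (∀ k, (y 0 : K) / (y 1 : K) ≠ (a k : K)) ∧
        VojtaAbove q s z κ C₀ ((y 0 : K) / (y 1 : K))) (by
        intro N e
        refine (Pool.Agent.J4.H74.CurvLM.sparse_curve A a ha j s z hz hcov K κ C₀ hκ hκq N e).mono ?_
        intro B u _ _ hbad hgood
        apply hbad
        obtain ⟨hg1, hg2, hg3⟩ := hgood
        refine ⟨hg1, hg2, ?_⟩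
        intro L _ _ _ φ S hφ hS
        obtain ⟨hfin, h1⟩ := hg3 L φ S hφ hS
        rw [proximity_eq S s z L φ hfin]
        have e1 : height (((Pool.Agent.R366.NF.vec e u 0 : 𝓞 K) : K) /
            ((Pool.Agent.R366.NF.vec e u 1 : 𝓞 K) : K)) =
            Pool.Agent.Results.MP_f5a5f7_nt.FewExceptions.height
              (((Pool.Agent.R366.NF.vec e u 0 : 𝓞 K) : K) /
            ((Pool.Agent.R366.NF.vec e u 1 : 𝓞 K) : K)) := rfl
        rw [e1]
        unfold canonicalDegree logDisc
        linarith)
    refine ⟨η, hη, fun f hf U => ?_⟩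
    obtain ⟨N₀, hN₀⟩ := h f (fun w => ⟨(hf w).mul, (hf w).pos, (hf w).growth, (hf w).prime⟩) U
    exact ⟨N₀, fun N hN => hN₀ N hN⟩
  · have h := Pool.Agent.N733.TG.lm_totient
    exact ⟨h.mul, h.pos, h.growth, h.prime⟩
  · have h := Pool.Agent.N733.TG.lm_sigma
    exact ⟨h.mul, h.pos, h.growth, h.prime⟩

end Pool.Agent.Results.MP_71c16a_nt.CurvesMultiplicativeValues
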