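import Pool.Agent.J4.H5.VJ.Main4
import Pool.Agent.J4.H5.VJ.T_SER
import Pool.Agent.J4.H5.VJ.T_UNR
import Pool.Agent.J4.H5.VJ.T_CNT
import Pool.Agent.J4.H5.VJ.T_PROX
import Pool.Agent.J4.H5.VJ.T_KUM
import Pool.Agent.J4.H5.VJ.T_HT
import Pool.Agent.J4.H5.VJ.T_POW
import Pool.Agent.J4.H5.VJ.T_DIV
import Pool.Agent.J4.H5.VJ.T_DISC
import Pool.Agent.J4.H5.VJ.T_FREE
import Pool.Agent.J4.H5.VJ.T_PUSHX
import Pool.Agent.J4.H5.VJ.T_PULLX
import Pool.Agent.J4.H5.VJ.T_BER1X
import Pool.Agent.J4.H5.VJ.T_GENX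
import Pool.Agent.J4.H5.VJ.T_BERV
import Pool.Agent.J4.H5.VJ.T_LINV
import Pool.Agent.J4.H5.VJ.T_NCV
import Pool.Agent.J4.H5.VJ.T_NCW
import Pool.Agent.J4.H5.VJ.T_PROXI
import Pool.Agent.J4.H5.VJ.T_POWI
import Pool.Agent.J4.H5.VJ.T_ROWS
import Pool.Agent.J4.H5.VJ.T_ROWM
import Pool.Agent.J4.H5.VJ.T_NSX5

/-!
# Vojta's conjecture is equivalent to its version with a large error term

The pieces (`Pool/Agent/J4/H5/VJ`) were proved by helper14, helper19, helper20, helper25, helper30,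
helper31, helper35, helper36, helper43, helper45, helper48, helper49, helper50, helper60, helper62,
helper66, helper67, helper76, helper78, helper81, helper82, helper85, helper89, helper95, helper96,
helper97, helper99; definitions and main argument by helper5.
-/

set_option autoImplicit false

open MvPolynomial NumberField IsDedekindDomain Module

namespace Pool.Agent.Results.MP_71c16a_nt.LargeErrorTerm

open Pool.Agent.J4.H5.VJ

theorem holds_mono {k : Type} [Field k] [NumberField k] {n t u s : ℕ}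
    {f : Fin t → MvPolynomial (Fin (n + 1)) k} {G : Fin u → MvPolynomial (Fin (n + 1)) k} {e : ℕ}
    {A A' : ℝ} {r : ℕ} (hA : A ≤ A') (h : HoldsV k s f G e A r) : HoldsV k s f G e A' r := by
  obtain ⟨P, N, hP, hN, hS⟩ := h
  refine ⟨P, N, hP, hN, fun S => ?_⟩
  obtain ⟨c, hc⟩ := hS S
  refine ⟨c, ?_⟩
  intro L _ _ _ x hx0 hfx hr hPx hGx α hα
  have h1 := hc L x hx0 hfx hr hPx hGx α hα
  have h2 : 0 ≤ height k x := div_nonneg (Height.logHeight_nonneg x) (Nat.cast_nonneg _)
  have h3 := mul_le_mul_of_nonneg_right hA h2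
  linarith

/-- The pull back of a form under the power map. -/
theorem hom_expand {k : Type} [Field k] {n : ℕ} {F : MvPolynomial (Fin (n + 1)) k} {e m : ℕ}
    (hF : F.IsHomogeneous e) : (expand m F).IsHomogeneous (m * e) :=
  hF.aeval (fun i => X i ^ m) (fun i => isHomogeneous_X_pow i m)

/-- The following are equivalent for all smooth projective varieties `X` of codimension `s` in `ℙⁿ`
and all effective divisors `D` on `X` with strict normal crossings: (1) Vojta's inequality with the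
error term `ε h(x)` for all these pairs and all `ε > 0`; (2) the inequality with the error term `C h(x)`
for all these pairs with one constant `C`; (3) for all `δ > 0` the inequality with the error term
`δ (e + ∑ d_i) h(x)` for all these pairs for which `e + ∑ d_i` is large (`X` and `D` being given by
forms of degrees `d_i` and `e`); (4) for all these pairs in general position to the coordinate
hyperplanes and all `ε > 0` the inequality with the error term `(ε m - n - 1) h(x)` for the pull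
back of `(X, D)` under the map `x ↦ x ^ m` for one `m ≥ 1`. -/
theorem result (k : Type) [Field k] [NumberField k] (n s : ℕ) :
    List.TFAE [
      ∀ (t u : ℕ) (f : Fin t → MvPolynomial (Fin (n + 1)) k) (d : Fin t → ℕ)
        (G : Fin u → MvPolynomial (Fin (n + 1)) k) (e : ℕ), (∀ i, (f i).IsHomogeneous (d i)) →
        (∀ i, (G i).IsHomogeneous e) → 0 < e + ∑ i, d i → IsSNCV s f G → ∀ ε : ℝ, 0 < ε →
        ∀ r : ℕ, HoldsV k s f G e ε r,
      ∃ C : ℝ, ∀ (t u : ℕ) (f : Fin t → MvPolynomial (Fin (n + 1)) k) (d : Fin t → ℕ)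
        (G : Fin u → MvPolynomial (Fin (n + 1)) k) (e : ℕ), (∀ i, (f i).IsHomogeneous (d i)) →
        (∀ i, (G i).IsHomogeneous e) → 0 < e + ∑ i, d i → IsSNCV s f G →
        ∀ r : ℕ, HoldsV k s f G e C r,
      ∀ δ : ℝ, 0 < δ → ∃ B : ℕ, ∀ (t u : ℕ) (f : Fin t → MvPolynomial (Fin (n + 1)) k)
        (d : Fin t → ℕ) (G : Fin u → MvPolynomial (Fin (n + 1)) k) (e : ℕ),
        (∀ i, (f i).IsHomogeneous (d i)) → (∀ i, (G i).IsHomogeneous e) →
        0 < e + ∑ i, d i → B ≤ e + ∑ i, d i → IsSNCV s f G →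
        ∀ r : ℕ, HoldsV k s f G e (δ * (e + ∑ i, d i : ℕ)) r,
      ∀ (t u : ℕ) (f : Fin t → MvPolynomial (Fin (n + 1)) k) (d : Fin t → ℕ)
        (G : Fin u → MvPolynomial (Fin (n + 1)) k) (e : ℕ), (∀ i, (f i).IsHomogeneous (d i)) →
        (∀ i, (G i).IsHomogeneous e) → 0 < e + ∑ i, d i → IsTransV s f G → ∀ ε : ℝ, 0 < ε →
        ∃ m : ℕ, 1 ≤ m ∧ ∀ r : ℕ, HoldsV k s (fun i => expand m (f i)) (fun i => expand m (G i))
          (m * e) (ε * m - (n + 1)) r] := by
  tfae_have 1 → 2 := fun h => ⟨1, fun t u f d G e hf hG hd hT r =>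
    h t u f d G e hf hG hd hT 1 one_pos r⟩
  tfae_have 2 → 3 := by
    rintro ⟨C, hC⟩ δ hδ
    obtain ⟨B, hB⟩ := exists_nat_ge (C / δ)
    refine ⟨B, fun t u f d G e hf hG hd he hT r =>
      holds_mono ?_ (hC t u f d G e hf hG hd hT r)⟩
    have h1 : (B : ℝ) ≤ ((e + ∑ i, d i : ℕ) : ℝ) := by exact_mod_cast he
    rw [div_le_iff₀ hδ] at hB
    have h2 := mul_le_mul_of_nonneg_right h1 hδ.le
    linarith
  tfae_have 3 → 4 := by
    intro h t u f d G e hf hG hd hT ε hε
    have hdR : (0 : ℝ) < ((e + ∑ i, d i : ℕ) : ℝ) := by exact_mod_cast hd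
    obtain ⟨B, hB⟩ := h (ε / 2 / ((e + ∑ i, d i : ℕ) : ℝ)) (div_pos (half_pos hε) hdR)
    obtain ⟨N, hN⟩ := exists_nat_ge (((n : ℝ) + 1) / (ε / 2))
    obtain ⟨m, hm⟩ : ∃ m : ℕ, m = max (max B N) 1 := ⟨_, rfl⟩
    have hm1 : 1 ≤ m := by rw [hm]; exact le_max_right _ _
    have hmB : B ≤ m := by rw [hm]; exact (le_max_left _ _).trans (le_max_left _ _)
    have hmN : N ≤ m := by rw [hm]; exact (le_max_right _ _).trans (le_max_left _ _)
    have hsum : m * e + ∑ i, m * d i = m * (e + ∑ i, d i) := by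
      rw [mul_add, Finset.mul_sum]
    have hBm : B ≤ m * e + ∑ i, m * d i := by
      rw [hsum]
      exact hmB.trans (Nat.le_mul_of_pos_right m hd)
    refine ⟨m, hm1, fun r => ?_⟩
    have h2 := hB t u (fun i => expand m (f i)) (fun i => m * d i) (fun i => expand m (G i))
      (m * e) (fun i => hom_expand (hf i)) (fun i => hom_expand (hG i))
      (by rw [hsum]; exact Nat.mul_pos hm1 hd) hBm
      (t_NCW k n t u s _ _ (t_NCV k n t u s m f G hm1
        (fun l => t_PULLX t_FREE k n t m f l hm1 (hT.1 l)) hT)) r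
    refine holds_mono ?_ h2
    rw [hsum]
    have h3 : ε / 2 / ((e + ∑ i, d i : ℕ) : ℝ) * ((m * (e + ∑ i, d i) : ℕ) : ℝ) = ε / 2 * m := by
      rw [Nat.cast_mul]
      field_simp
    rw [h3]
    have h4 : ((n : ℝ) + 1) ≤ ε / 2 * m := by
      rw [div_le_iff₀ (half_pos hε)] at hN
      have h5 : (N : ℝ) ≤ m := by exact_mod_cast hmN
      have h6 := mul_le_mul_of_nonneg_right h5 (half_pos hε).le
      linarith
    linarith
  tfae_have 4 → 1 := by
    intro h t u f d G e hf hG hd hT ε hε r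
    obtain ⟨g, hg, hgT⟩ := t_BERV t_BER1X t_GENX k n t u s f G hT
    apply t_LINV k n t u s f G e _ r g hg hG
    have hgf : ∀ i, (lin g (f i)).IsHomogeneous (d i) := fun i => LINH.lin_hom g _ _ (hf i)
    have hgG : ∀ i, (lin g (G i)).IsHomogeneous e := fun i => LINH.lin_hom g _ _ (hG i)
    obtain ⟨m, hm1, hm⟩ := h t u (fun i => lin g (f i)) d (fun i => lin g (G i)) e hgf hgG hd hgT
      ε hε
    exact descV t_PROXI t_POWI t_ROWS t_ROWM t_NSX5 t_POW t_HT t_SER t_UNR t_KUM t_CNT t_DIV t_DISC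
      t_PUSHX k s (fun i => lin g (f i)) d hgf (fun i => lin g (G i)) e m hgG hgT hm1 ε hm r
  tfae_finish

end Pool.Agent.Results.MP_71c16a_nt.LargeErrorTerm
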