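import Mathlib
import Pool.Agent.J4.H47.SC.Main

set_option autoImplicit false

/-!
# The coefficient of the discriminant in Vojta's conjecture is optimal on products of hyperelliptic
# curves, for every divisor `D`, for example `D = 0`

`k` is any number field, `X = C_1 × … × C_n`, `n ≥ 1`, where `C_i` is the smooth projective model of
`y_i² = f_i(x_i)`, `f_i` a polynomial over `k` of degree at least `5` without multiple roots: any
hyperelliptic curve over `k` of genus `g_i ≥ 2` with a hyperelliptic map to `ℙ¹` over `k`, for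
example any curve of genus `2`. `X` is of general type and its canonical class is the sum of
`g_i - 1` times the pullback of `O(1)` by `x_i`, so that `h_K(P) = ∑ (g_i - 1) h(x_i(P))`.

We show: there are `r` and `C₀`, depending only on the `f_i`, such that the points `P` of `X` of
degree at most `r` over `k` with `d_k(P) ≤ h_K(P) + C₀` (and all `h(x_i(P))` large) are Zariski dense
in `X`. Hence Vojta's inequality with `κ d_k(P)`, `κ < 1`, in place of `d_k(P)` is false on `X` for
this `r`, every `D`, every `S` and every proper closed subset; and `ε` cannot be negative for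
`κ = 1`.

Proof. Let `K` be a number field over which the `f_i` split. Move four of the branch points of
`x_i` to `0, 1, λ, ∞`. The duplication map `δ` of the elliptic curve `w² = t (t - 1) (t - λ)` on the
`t`-line preserves `t (t - 1) (t - λ)` up to squares and multiplies heights by four. So, for the
points of an orbit of `δ` in `K`, the coordinate `y_i` generates the extension of `K` by the square
root of a constant times the product of the other `2 g_i - 2` factors. (`X` has an étale cover which
is a ramified cover of a product of elliptic curves; the points lie above rational points of it.)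
-/

namespace Pool.Agent.Results.MP_71c16a_nt.SharpCoefficient

open NumberField Module Polynomial

/-- The genus of the curve `y² = f(x)`, `f` without multiple roots: `deg f` is `2 g + 1` or
`2 g + 2`. -/
def genus {k : Type} [Field k] (f : k[X]) : ℕ := (f.natDegree - 1) / 2

/-- The logarithmic height of `z ∈ F`, normalised relative to `k`. -/
noncomputable def height (k : Type) [Field k] {F : Type} [Field F] [NumberField F] [Algebra k F]
    (z : F) : ℝ :=
  Height.logHeight₁ z / finrank k F

/-- The height `h_K(P) = ∑ (g_i - 1) h(x_i(P))` with respect to the canonical divisor of `X`, which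
is `∑ (g_i - 1) x_i^*(∞)` (the divisor of the exterior product of the `dx_i / y_i`). -/
noncomputable def canonicalHeight {k : Type} [Field k] {n : ℕ} (f : Fin n → k[X]) {F : Type}
    [Field F] [NumberField F] [Algebra k F] (x : Fin n → F) : ℝ :=
  ∑ i, ((genus (f i) : ℝ) - 1) * height k (x i)

/-- The logarithmic discriminant `d_k(F)`. -/
noncomputable def logDisc (k : Type) [Field k] [NumberField k] (F : Type) [Field F]
    [NumberField F] [Algebra k F] : ℝ :=
  Real.log |(discr F : ℝ)| / finrank k F - Real.log |(discr k : ℝ)|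

/-- `P = (x, y)` is a point of `X` with the residue field `F`. -/
structure IsPoint {k : Type} [Field k] {n : ℕ} (f : Fin n → k[X]) {F : Type} [Field F]
    [Algebra k F] (x y : Fin n → F) : Prop where
  on_curves : ∀ i, y i ^ 2 = aeval (x i) (f i)
  residue_field : IntermediateField.adjoin k (Set.range x ∪ Set.range y) = ⊤

/-- The inequality `h_K(P) + m(P) ≤ ε h_A(P) + κ d_k(P) + C`, `h_A(P) = ∑ h(x_i(P))`, for all points
`P` of `X` of degree at most `r` over `k` (not above `x_i = ∞`) with `G(x(P)) ≠ 0`. In Vojta's
conjecture `κ = 1` and `m` is the proximity function to `D`. Every proper closed subset of `X` is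
contained in the zero set of such a polynomial `G ≠ 0` in `x_1, …, x_n` together with the points
above `x_i = ∞`. -/
def VojtaInequality {k : Type} [Field k] [NumberField k] {n : ℕ} (f : Fin n → k[X])
    (m : ∀ (F : Type) [Field F] [NumberField F] [Algebra k F], (Fin n → F) → (Fin n → F) → ℝ)
    (G : MvPolynomial (Fin n) k) (ε κ C : ℝ) (r : ℕ) : Prop :=
  ∀ (F : Type) [Field F] [NumberField F] [Algebra k F] (x y : Fin n → F),
    finrank k F ≤ r → IsPoint f x y → MvPolynomial.aeval x G ≠ 0 →
    canonicalHeight f x + m F x y ≤ ε * ∑ i, height k (x i) + κ * logDisc k F + C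

/-- **The coefficient of the discriminant is optimal on products of hyperelliptic curves.** Let
`f_1, …, f_n` be polynomials of degree at least `5` over the number field `k` without multiple roots.
There are `r` and `C₀` such that

(1) for every polynomial `G ≠ 0` in `x_1, …, x_n` and every `B` there is a point `P` of `X` of degree
at most `r` over `k` with `G(x(P)) ≠ 0`, `h(x_i(P)) ≥ B` for all `i` and `d_k(P) ≤ h_K(P) + C₀`;

(2) if `n ≥ 1`, then for all functions `m` on the points which are bounded from below (such as the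
proximity functions of effective divisors), all `κ ≥ 0` and all `ε` with `ε < (1 - κ) (g_i - 1)` for
all `i` the inequality `h_K(P) + m(P) ≤ ε h_A(P) + κ d_k(P) + C` for all points `P` of degree at most
`r` with `G(x(P)) ≠ 0` is false, for all `G ≠ 0` and `C`. -/
theorem result (k : Type) [Field k] [NumberField k] (n : ℕ) (f : Fin n → k[X])
    (hsep : ∀ i, (f i).Separable) (hdeg : ∀ i, 5 ≤ (f i).natDegree) :
    ∃ (r : ℕ) (C₀ : ℝ),
      (∀ G : MvPolynomial (Fin n) k, G ≠ 0 → ∀ B : ℝ,
        ∃ (F : Type) (_ : Field F) (_ : NumberField F) (_ : Algebra k F) (x y : Fin n → F),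
          finrank k F ≤ r ∧ IsPoint f x y ∧ MvPolynomial.aeval x G ≠ 0 ∧
          (∀ i, B ≤ height k (x i)) ∧ logDisc k F ≤ canonicalHeight f x + C₀) ∧
      (0 < n → ∀ (m : ∀ (F : Type) [Field F] [NumberField F] [Algebra k F],
          (Fin n → F) → (Fin n → F) → ℝ) (c : ℝ),
        (∀ (F : Type) [Field F] [NumberField F] [Algebra k F] (x y : Fin n → F), c ≤ m F x y) →
        ∀ (G : MvPolynomial (Fin n) k) (ε κ C : ℝ), G ≠ 0 → 0 ≤ κ →
          (∀ i, ε < (1 - κ) * ((genus (f i) : ℝ) - 1)) → ¬ VojtaInequality f m G ε κ C r) := by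
  classical
  obtain ⟨r, C₁, hmain⟩ := Pool.Agent.J4.H47.SC.main k n f hsep hdeg
  set d : ℝ := (finrank ℚ k : ℝ) with hd
  have hd1 : 1 ≤ d := by
    rw [hd]
    exact_mod_cast (finrank_pos : 0 < finrank ℚ k)
  have hd0 : 0 < d := by linarith
  have hgen : ∀ i, ((((f i).natDegree - 1) / 2 - 1 : ℕ) : ℝ) = (genus (f i) : ℝ) - 1 := by
    intro i
    have h := hdeg i
    unfold genus
    rw [Nat.cast_sub (by omega), Nat.cast_one]
  -- comparison of the normalisations
  have hht : ∀ (F : Type) [Field F] [NumberField F] [Algebra k F] (z : F),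
      height k z = d * Pool.Agent.Y733.VR.hh z := by
    intro F _ _ _ z
    have h1 := Pool.Agent.Y733.VR.finrank_tower k F
    have h2 : (0 : ℝ) < finrank k F := by
      have : FiniteDimensional k F := inferInstance
      exact_mod_cast finrank_pos
    unfold height Pool.Agent.Y733.VR.hh
    rw [h1, ← hd]
    field_simp
  have hdisc : ∀ (F : Type) [Field F] [NumberField F] [Algebra k F],
      logDisc k F = d * (Pool.Agent.Y733.VR.ld F - Pool.Agent.Y733.VR.ld k) := by
    intro F _ _ _
    have h1 := Pool.Agent.Y733.VR.finrank_tower k F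
    have h2 : (0 : ℝ) < finrank k F := by
      have : FiniteDimensional k F := inferInstance
      exact_mod_cast finrank_pos
    unfold logDisc Pool.Agent.Y733.VR.ld
    rw [h1, ← hd]
    field_simp
  have part1 : ∀ G : MvPolynomial (Fin n) k, G ≠ 0 → ∀ B : ℝ,
        ∃ (F : Type) (_ : Field F) (_ : NumberField F) (_ : Algebra k F) (x y : Fin n → F),
          finrank k F ≤ r ∧ IsPoint f x y ∧ MvPolynomial.aeval x G ≠ 0 ∧
          (∀ i, B ≤ height k (x i)) ∧
          logDisc k F ≤ canonicalHeight f x + d * (C₁ - Pool.Agent.Y733.VR.ld k) := by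
    intro G hG B
    obtain ⟨F, iF, iN, iA, x, y, h1, h2, h3, h4, h5, h6⟩ := hmain G hG |B|
    refine ⟨F, iF, iN, iA, x, y, h1, ⟨h3, h2⟩, h4, fun i => ?_, ?_⟩
    · rw [hht F (x i)]
      have h7 := h5 i
      have h8 := le_abs_self B
      have h9 := abs_nonneg B
      nlinarith
    · rw [hdisc F]
      have h7 : canonicalHeight f x = d * ∑ i, ((((f i).natDegree - 1) / 2 - 1 : ℕ) : ℝ) *
          Pool.Agent.Y733.VR.hh (x i) := by
        unfold canonicalHeight
        rw [Finset.mul_sum]
        refine Finset.sum_congr rfl fun i _ => ?_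
        rw [hgen i, hht F (x i)]
        ring
      rw [h7, ← mul_add]
      refine mul_le_mul_of_nonneg_left ?_ hd0.le
      linarith
  refine ⟨r, d * (C₁ - Pool.Agent.Y733.VR.ld k), part1, ?_⟩
  intro hn m c hm G ε κ C hG hκ hε hV
  set C₀ : ℝ := d * (C₁ - Pool.Agent.Y733.VR.ld k) with hC₀
  -- the smallest of the gaps
  obtain ⟨i₀⟩ : Nonempty (Fin n) := ⟨⟨0, hn⟩⟩
  obtain ⟨j, -, hj⟩ := Finset.exists_min_image (Finset.univ : Finset (Fin n))
    (fun i => (1 - κ) * ((genus (f i) : ℝ) - 1) - ε) ⟨i₀, Finset.mem_univ i₀⟩
  set γ : ℝ := (1 - κ) * ((genus (f j) : ℝ) - 1) - ε with hγ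
  have hγ0 : 0 < γ := by
    have := hε j
    rw [hγ]
    linarith
  obtain ⟨F, iF, iN, iA, x, y, h1, h2, h3, h4, h5⟩ :=
    part1 G hG (|(κ * C₀ + C - c) / γ| + 1)
  have h6 := hV F x y h1 h2 h3
  have h7 := hm F x y
  have h8 : κ * logDisc k F ≤ κ * (canonicalHeight f x + C₀) := mul_le_mul_of_nonneg_left h5 hκ
  have h9 : (1 - κ) * canonicalHeight f x - ε * ∑ i, height k (x i) ≤ κ * C₀ + C - c := by
    linarith
  have h10 : (1 - κ) * canonicalHeight f x - ε * ∑ i, height k (x i) =
      ∑ i, ((1 - κ) * ((genus (f i) : ℝ) - 1) - ε) * height k (x i) := by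
    unfold canonicalHeight
    rw [Finset.mul_sum, Finset.mul_sum, ← Finset.sum_sub_distrib]
    refine Finset.sum_congr rfl fun i _ => ?_
    ring
  have hB0 : 0 ≤ |(κ * C₀ + C - c) / γ| := abs_nonneg _
  have h11 : γ * height k (x i₀) ≤
      ∑ i, ((1 - κ) * ((genus (f i) : ℝ) - 1) - ε) * height k (x i) := by
    have h12 : ∀ i ∈ (Finset.univ : Finset (Fin n)),
        0 ≤ ((1 - κ) * ((genus (f i) : ℝ) - 1) - ε) * height k (x i) := by
      intro i _
      refine mul_nonneg (hγ0.le.trans (hj i (Finset.mem_univ i))) ?_
      have := h4 i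
      linarith
    refine le_trans ?_ (Finset.single_le_sum h12 (Finset.mem_univ i₀))
    refine mul_le_mul_of_nonneg_right (hj i₀ (Finset.mem_univ i₀)) ?_
    have := h4 i₀
    linarith
  have h13 : (κ * C₀ + C - c) / γ < height k (x i₀) := by
    have := h4 i₀
    have := le_abs_self ((κ * C₀ + C - c) / γ)
    linarith
  rw [div_lt_iff₀ hγ0] at h13
  linarith

end Pool.Agent.Results.MP_71c16a_nt.SharpCoefficient
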